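import Mathlib

set_option autoImplicit false

namespace Pool.Agent.Results.MP_407f73_al.DualNotFree

/-- A Mealy automaton with set of states `Q` and alphabet `A`. -/
structure Mealy (Q A : Type) where
  /-- the transition function -/
  trans : Q → A → Q
  /-- the output function -/
  out : Q → A → A

namespace Mealy

variable {Q A : Type} (M : Mealy Q A)

/-- The action of a state on finite words:
`q ∘ (a w) = out q a · (trans q a ∘ w)`. -/
def act : Q → List A → List A
  | _, [] => []
  | q, a :: w => M.out q a :: act (M.trans q a) w

/-- The dual automaton: states and letters exchange their roles. -/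
def dual : Mealy A Q where
  trans a q := M.out q a
  out a q := M.trans q a

/-- The automaton semigroup, inside the semigroup of all maps `A* → A*`. -/
def semigroup : Subsemigroup (Function.End (List A)) :=
  Subsemigroup.closure (Set.range fun q : Q => (M.act q : Function.End (List A)))

/-- The automaton semigroup is transitive on every level `A ^ n`, `n ≥ 1`, of the tree `A*`. -/
def Transitive : Prop :=
  ∀ n : ℕ, 1 ≤ n → ∀ u v : List A, u.length = n → v.length = n → ∃ s ∈ M.semigroup, s u = v

/-- The map `A* → A*` induced by a word over `Q`: the composition of the maps of its letters. -/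
def wordAct : List Q → List A → List A
  | [], w => w
  | q :: u, w => M.act q (wordAct u w)

/-- Every state acts by a permutation of the alphabet. -/
def Invertible : Prop := ∀ q : Q, Function.Bijective (M.out q)

/-- Different states induce different maps on the words. -/
def Reduced : Prop := ∀ q q' : Q, M.act q = M.act q' → q = q'

/-- The automaton semigroup is freely generated by the maps of the states: different non-empty
words over `Q` induce different maps. -/
def FreelyGenerated : Prop :=
  ∀ u v : List Q, u ≠ [] → v ≠ [] → M.wordAct u = M.wordAct v → u = v

end Mealy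

/-- The states of the counterexample. -/
inductive St
  | e | p | r | sp | sr | t
  deriving DecidableEq

instance : Fintype St := ⟨{.e, .p, .r, .sp, .sr, .t}, by intro x; cases x <;> decide⟩

/-- The transition function of the counterexample. -/
def tr : St → Bool × Bool → St
  | .e, _ => .e
  | .p, _ => .e
  | .r, _ => .e
  | .sp, (false, _) => .sp
  | .sp, (true, _) => .p
  | .sr, (false, _) => .sr
  | .sr, (true, _) => .r
  | .t, (_, false) => .e
  | .t, (_, true) => .r

/-- The output function of the counterexample. -/
def ou : St → Bool × Bool → Bool × Bool
  | .p, (b, f) => (!b, f)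
  | .r, (b, f) => (b, !f)
  | _, a => a

/-- The counterexample. -/
def M : Mealy St (Bool × Bool) := ⟨tr, ou⟩

theorem act_cons (q : St) (a : Bool × Bool) (w : List (Bool × Bool)) :
    M.act q (a :: w) = ou q a :: M.act (tr q a) w := rfl

theorem act_e (w : List (Bool × Bool)) : M.act .e w = w := by
  induction w with
  | nil => rfl
  | cons a w ih =>
    rw [act_cons]
    show a :: M.act .e w = a :: w
    rw [ih]

theorem act_p (b f : Bool) (w : List (Bool × Bool)) : M.act .p ((b, f) :: w) = (!b, f) :: w := by
  rw [act_cons]
  show (!b, f) :: M.act .e w = _
  rw [act_e]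

theorem act_r (b f : Bool) (w : List (Bool × Bool)) : M.act .r ((b, f) :: w) = (b, !f) :: w := by
  rw [act_cons]
  show (b, !f) :: M.act .e w = _
  rw [act_e]

/-- Reachability by the states other than `t`. -/
def Reach (u v : List (Bool × Bool)) : Prop :=
  Relation.ReflTransGen (fun u v => ∃ q : St, q ≠ .t ∧ M.act q u = v) u v

theorem step (q : St) (hq : q ≠ .t) (u : List (Bool × Bool)) : Reach u (M.act q u) :=
  Relation.ReflTransGen.single ⟨q, hq, rfl⟩

theorem flip_b (b f : Bool) (w : List (Bool × Bool)) : Reach ((b, f) :: w) ((!b, f) :: w) := by
  have h := step .p (by decide) ((b, f) :: w)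
  rwa [act_p] at h

theorem flip_f (b f : Bool) (w : List (Bool × Bool)) : Reach ((b, f) :: w) ((b, !f) :: w) := by
  have h := step .r (by decide) ((b, f) :: w)
  rwa [act_r] at h

theorem move (a a' : Bool × Bool) (w : List (Bool × Bool)) : Reach (a :: w) (a' :: w) := by
  obtain ⟨b, f⟩ := a
  obtain ⟨b', f'⟩ := a'
  have h1 : Reach ((b, f) :: w) ((b', f) :: w) := by
    by_cases h : b = b'
    · rw [h]; exact Relation.ReflTransGen.refl
    · have : (!b) = b' := by cases b <;> cases b' <;> simp_all
      exact this ▸ flip_b b f w
  have h2 : Reach ((b', f) :: w) ((b', f') :: w) := by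
    by_cases h : f = f'
    · rw [h]; exact Relation.ReflTransGen.refl
    · have : (!f) = f' := by cases f <;> cases f' <;> simp_all
      exact this ▸ flip_f b' f w
  exact h1.trans h2

/-- Lifting a step to the subtree below the letter `(false, false)`. -/
theorem lift_step (q : St) (hq : q ≠ .t) (w : List (Bool × Bool)) :
    Reach ((false, false) :: w) ((false, false) :: M.act q w) := by
  match q, hq with
  | .e, _ => rw [act_e]; exact Relation.ReflTransGen.refl
  | .p, _ =>
    have h : Reach ((true, false) :: w) ((true, false) :: M.act .p w) :=
      step .sp (by decide) ((true, false) :: w)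
    exact ((move _ _ _).trans h).trans (move _ _ _)
  | .r, _ =>
    have h : Reach ((true, false) :: w) ((true, false) :: M.act .r w) :=
      step .sr (by decide) ((true, false) :: w)
    exact ((move _ _ _).trans h).trans (move _ _ _)
  | .sp, _ => exact step .sp (by decide) ((false, false) :: w)
  | .sr, _ => exact step .sr (by decide) ((false, false) :: w)

theorem lift {w w' : List (Bool × Bool)} (h : Reach w w') :
    Reach ((false, false) :: w) ((false, false) :: w') := by
  induction h with
  | refl => exact Relation.ReflTransGen.refl
  | tail _ hstep ih =>
    obtain ⟨q, hq, rfl⟩ := hstep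
    exact ih.trans (lift_step q hq _)

theorem reach_all : ∀ u v : List (Bool × Bool), u.length = v.length → Reach u v
  | [], [], _ => Relation.ReflTransGen.refl
  | a :: u, b :: v, h => by
    have ih : Reach u v := reach_all u v (by simpa using h)
    exact ((move a (false, false) u).trans (lift ih)).trans (move (false, false) b v)
  | [], _ :: _, h => by simp at h
  | _ :: _, [], h => by simp at h

theorem exists_of_reach {u v : List (Bool × Bool)} (h : Reach u v) :
    ∃ s ∈ M.semigroup, s u = v := by
  induction h with
  | refl =>
    exact ⟨M.act .e, Subsemigroup.subset_closure ⟨.e, rfl⟩, act_e u⟩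
  | tail _ hstep ih =>
    obtain ⟨q, -, rfl⟩ := hstep
    obtain ⟨s, hs, rfl⟩ := ih
    let g : Function.End (List (Bool × Bool)) := M.act q
    have hg : g ∈ M.semigroup := Subsemigroup.subset_closure ⟨q, rfl⟩
    exact ⟨g * s, mul_mem hg hs, rfl⟩

theorem transitive : M.Transitive := by
  intro n _ u v hu hv
  exact exists_of_reach (reach_all u v (hu.trans hv.symm))

theorem dual_cons (a : Bool × Bool) (q : St) (w : List St) :
    M.dual.act a (q :: w) = tr q a :: M.dual.act (ou q a) w := rfl

/-- Words of length two over the letters act in a way that does not depend on the second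
components. -/
theorem key (w : List St) : ∀ x x' y y' : Bool × Bool, x.1 = x'.1 → y.1 = y'.1 →
    M.dual.act x (M.dual.act y w) = M.dual.act x' (M.dual.act y' w) := by
  induction w with
  | nil => intro x x' y y' _ _; rfl
  | cons q w ih =>
    intro x x' y y' hx hy
    rw [dual_cons, dual_cons, dual_cons, dual_cons]
    have h1 : ∀ (q : St) (x x' y y' : Bool × Bool), x.1 = x'.1 → y.1 = y'.1 →
        tr (tr q y) x = tr (tr q y') x' ∧ (ou (tr q y) x).1 = (ou (tr q y') x').1 ∧
          (ou q y).1 = (ou q y').1 := by decide
    obtain ⟨e1, e2, e3⟩ := h1 q x x' y y' hx hy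
    rw [e1, ih _ _ _ _ e2 e3]

theorem invertible : M.Invertible := by
  have h : ∀ q : St, ∀ a : Bool × Bool, ou q (ou q a) = a := by decide
  intro q
  exact Function.Involutive.bijective (h q)

theorem reduced : M.Reduced := by
  intro q q' h
  have h1 : ∀ q q' : St, q ≠ q' →
      M.act q [(true, true), (false, false)] ≠ M.act q' [(true, true), (false, false)] ∨
      M.act q [(true, false), (false, false)] ≠ M.act q' [(true, false), (false, false)] := by
    decide
  by_contra hne
  rcases h1 q q' hne with h2 | h2
  · exact h2 (congrFun h _)
  · exact h2 (congrFun h _)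

theorem dual_reduced : M.dual.Reduced := by
  intro a a' h
  have h1 : ∀ a a' : Bool × Bool, a ≠ a' →
      M.dual.act a [.sp] ≠ M.dual.act a' [.sp] ∨ M.dual.act a [.t] ≠ M.dual.act a' [.t] := by
    decide
  by_contra hne
  rcases h1 a a' hne with h2 | h2
  · exact h2 (congrFun h _)
  · exact h2 (congrFun h _)

/-- There is a finite Mealy automaton over a four-letter alphabet whose semigroup is transitive on
the tree of words but whose dual automaton does not generate a free semigroup: two different words
of length two over the alphabet induce the same transformation. Moreover the automaton is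
invertible, its states act pairwise differently, and its letters act pairwise differently in the
dual automaton. -/
theorem result :
    ∃ (Q A : Type) (_ : Fintype Q) (_ : Fintype A) (M : Mealy Q A), 2 ≤ Fintype.card A ∧
      M.Transitive ∧ M.Invertible ∧ M.Reduced ∧ M.dual.Reduced ∧ ¬ M.dual.FreelyGenerated := by
  refine ⟨St, Bool × Bool, inferInstance, inferInstance, M, by decide, transitive, invertible,
    reduced, dual_reduced, fun h => ?_⟩
  have h1 := h [(false, false), (false, false)] [(false, true), (false, true)] (by simp) (by simp)
    (by
      funext w
      exact key w _ _ _ _ rfl rfl)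
  simp at h1

end Pool.Agent.Results.MP_407f73_al.DualNotFree
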